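import Pool.Agent.W2helper59.CW.Stm

/-!
# Project CW: the truncated Beta integral (piece BET)
-/

set_option autoImplicit false

namespace Pool.Agent.W2helper86.CW

open MeasureTheory Set Pool.Agent.W2helper59.CW

theorem beta_rec (de a : ℕ) (y : ℝ) :
    ∫ v in (0 : ℝ)..y, v ^ (de + 1) * (y - v) ^ a =
      (de + 1) / (a + 1) * ∫ v in (0 : ℝ)..y, v ^ de * (y - v) ^ (a + 1) := by
  have hd : ∀ v ∈ uIcc (0 : ℝ) y, HasDerivAt (fun v : ℝ => v ^ (de + 1) * (y - v) ^ (a + 1))
      ((de + 1) * v ^ de * (y - v) ^ (a + 1) - (a + 1) * (v ^ (de + 1) * (y - v) ^ a)) v := by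
    intro v _
    have h1 : HasDerivAt (fun v : ℝ => v ^ (de + 1)) ((de + 1 : ℕ) * v ^ de) v := by
      simpa using hasDerivAt_pow (de + 1) v
    have h2 : HasDerivAt (fun v : ℝ => (y - v) ^ (a + 1)) (((a + 1 : ℕ) : ℝ) * (y - v) ^ a * (-1)) v := by
      have h3 : HasDerivAt (fun v : ℝ => y - v) (-1) v := by
        simpa using (hasDerivAt_id v).const_sub y
      simpa using h3.fun_pow (a + 1)
    have h4 := h1.fun_mul h2
    refine h4.congr_deriv ?_
    push_cast
    ring
  have hi : IntervalIntegrable (fun v : ℝ => (de + 1) * v ^ de * (y - v) ^ (a + 1) -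
      (a + 1) * (v ^ (de + 1) * (y - v) ^ a)) volume 0 y :=
    Continuous.intervalIntegrable (by fun_prop) _ _
  have h := intervalIntegral.integral_eq_sub_of_hasDerivAt hd hi
  rw [intervalIntegral.integral_sub (Continuous.intervalIntegrable (by fun_prop) _ _)
    (Continuous.intervalIntegrable (by fun_prop) _ _), intervalIntegral.integral_const_mul] at h
  simp only [sub_self, mul_assoc, zero_pow (Nat.succ_ne_zero _), mul_zero, zero_mul] at h
  rw [intervalIntegral.integral_const_mul] at h
  have ha : (0 : ℝ) < a + 1 := by positivity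
  field_simp
  linarith

theorem beta_int (de : ℕ) : ∀ (a : ℕ) (y : ℝ), ∫ v in (0 : ℝ)..y, v ^ de * (y - v) ^ a =
    (de.factorial : ℝ) * a.factorial / (a + de + 1).factorial * y ^ (a + de + 1) := by
  induction de with
  | zero =>
    intro a y
    have hd : ∀ v ∈ uIcc (0 : ℝ) y, HasDerivAt (fun v : ℝ => -((y - v) ^ (a + 1) / (a + 1)))
        (v ^ 0 * (y - v) ^ a) v := by
      intro v _
      have h3 : HasDerivAt (fun v : ℝ => y - v) (-1) v := by
        simpa using (hasDerivAt_id v).const_sub y
      have h4 := ((h3.fun_pow (a + 1)).div_const ((a : ℝ) + 1)).fun_neg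
      refine h4.congr_deriv ?_
      have ha : (0 : ℝ) < a + 1 := by positivity
      push_cast
      field_simp
    rw [intervalIntegral.integral_eq_sub_of_hasDerivAt hd
      (Continuous.intervalIntegrable (by fun_prop) _ _)]
    have h5 : ((a + 0 + 1).factorial : ℝ) = (a + 1) * a.factorial := by
      rw [add_zero, Nat.factorial_succ]; push_cast; ring
    rw [h5]
    have h6 : (a.factorial : ℝ) ≠ 0 := by positivity
    have ha : (a : ℝ) + 1 ≠ 0 := by positivity
    simp only [sub_self, zero_pow (Nat.succ_ne_zero a), zero_div, neg_zero, sub_zero,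
      Nat.factorial_zero, Nat.cast_one, one_mul, add_zero]
    field_simp
    ring
  | succ de ih =>
    intro a y
    rw [beta_rec, ih (a + 1) y]
    have h1 : a + 1 + de + 1 = a + (de + 1) + 1 := by ring
    rw [h1, Nat.factorial_succ a, Nat.factorial_succ de]
    push_cast
    have ha : (a : ℝ) + 1 ≠ 0 := by positivity
    field_simp

theorem fac_le (a k : ℕ) : (a + k).factorial ≤ a.factorial * (a + k) ^ k := by
  induction k with
  | zero => simp
  | succ k ih =>
    have h1 : (a + (k + 1)).factorial = (a + k + 1) * (a + k).factorial := by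
      rw [← add_assoc, Nat.factorial_succ]
    rw [h1]
    calc (a + k + 1) * (a + k).factorial ≤ (a + k + 1) * (a.factorial * (a + k) ^ k) :=
          Nat.mul_le_mul_left _ ih
      _ ≤ (a + k + 1) * (a.factorial * (a + (k + 1)) ^ k) := by
          gcongr
          omega
      _ = a.factorial * (a + (k + 1)) ^ (k + 1) := by ring

theorem p_bet : P_BET := by
  intro de theta Bm rho hth hB hr0 hr1
  set q : ℝ := max 0 (1 - theta / Bm) with hq
  have hq0 : 0 ≤ q := le_max_left _ _
  have hq1 : q < 1 := by
    apply max_lt one_pos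
    have : 0 < theta / Bm := by positivity
    linarith
  -- choice of a₀
  have hlim : Filter.Tendsto (fun a : ℕ => ((de : ℝ) + 2) ^ (de + 1) * ((a : ℝ) ^ (de + 1) * q ^ a))
      Filter.atTop (nhds (((de : ℝ) + 2) ^ (de + 1) * 0)) := by
    apply Filter.Tendsto.const_mul
    exact tendsto_pow_const_mul_const_pow_of_abs_lt_one (de + 1) (by rwa [abs_of_nonneg hq0])
  rw [mul_zero] at hlim
  have hpos : 0 < (1 - rho) * (de.factorial : ℝ) := by
    have : 0 < 1 - rho := by linarith
    positivity
  have hev := (hlim.eventually (gt_mem_nhds hpos)).and (Filter.eventually_ge_atTop 1)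
  obtain ⟨a₀, ha₀⟩ := Filter.eventually_atTop.mp hev
  refine ⟨a₀, fun a ha y hy0 hyB => ?_⟩
  obtain ⟨hsmall, ha1⟩ := ha₀ a ha
  set N : ℝ := ((a + de + 1).factorial : ℝ) with hN
  have hN0 : 0 < N := by positivity
  have hb : 0 ≤ (de.factorial : ℝ) * a.factorial / N * y ^ (a + de + 1) := by positivity
  rcases le_or_gt y theta with hyt | hyt
  · rw [min_eq_right hyt, beta_int]
    nlinarith
  · rw [min_eq_left hyt.le]
    have hsplit : (∫ v in (0 : ℝ)..theta, v ^ de * (y - v) ^ a) +
        ∫ v in theta..y, v ^ de * (y - v) ^ a = ∫ v in (0 : ℝ)..y, v ^ de * (y - v) ^ a :=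
      intervalIntegral.integral_add_adjacent_intervals
        (Continuous.intervalIntegrable (by fun_prop) _ _)
        (Continuous.intervalIntegrable (by fun_prop) _ _)
    rw [beta_int] at hsplit
    have hy : 0 < y := hth.trans hyt
    -- the tail
    have htail : ∫ v in theta..y, v ^ de * (y - v) ^ a ≤ y ^ (a + de + 1) * q ^ a := by
      have h1 : ∫ v in theta..y, v ^ de * (y - v) ^ a ≤ ∫ _v in theta..y, y ^ de * (y * q) ^ a := by
        apply intervalIntegral.integral_mono_on hyt.le
          (Continuous.intervalIntegrable (by fun_prop) _ _)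
          (Continuous.intervalIntegrable (by fun_prop) _ _)
        intro v hv
        have hv0 : 0 ≤ v := hth.le.trans hv.1
        have h2 : y - v ≤ y * q := by
          have h3 : 1 - theta / Bm ≤ q := le_max_right _ _
          have h4 : theta / Bm * y ≤ theta := by
            rw [div_mul_eq_mul_div, div_le_iff₀ hB]
            exact mul_le_mul_of_nonneg_left hyB hth.le
          nlinarith [hv.1]
        have h5 : 0 ≤ y - v := by linarith [hv.2]
        exact mul_le_mul (pow_le_pow_left₀ hv0 hv.2 _) (pow_le_pow_left₀ h5 h2 _)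
          (pow_nonneg h5 _) (by positivity)
      rw [intervalIntegral.integral_const, smul_eq_mul] at h1
      refine h1.trans ?_
      have h6 : y ^ (a + de + 1) * q ^ a = y * (y ^ de * (y * q) ^ a) := by
        rw [mul_pow]; ring
      rw [h6]
      apply mul_le_mul_of_nonneg_right (by linarith) (by positivity)
    have hkey : q ^ a ≤ (1 - rho) * ((de.factorial : ℝ) * a.factorial / N) := by
      have h1 : N ≤ a.factorial * ((de : ℝ) + 2) ^ (de + 1) * (a : ℝ) ^ (de + 1) := by
        have h2 := fac_le a (de + 1)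
        have h3 : (a + (de + 1)) ≤ (de + 2) * a := by nlinarith
        have h4 : (a + (de + 1)) ^ (de + 1) ≤ ((de + 2) * a) ^ (de + 1) := Nat.pow_le_pow_left h3 _
        have h5 : (a + de + 1).factorial ≤ a.factorial * ((de + 2) * a) ^ (de + 1) :=
          h2.trans (Nat.mul_le_mul_left _ h4)
        have h6 : N ≤ ((a.factorial * ((de + 2) * a) ^ (de + 1) : ℕ) : ℝ) := by
          rw [hN]; exact_mod_cast h5
        refine h6.trans (le_of_eq ?_)
        push_cast
        rw [mul_pow]; ring
      rw [mul_div_assoc', le_div_iff₀ hN0]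
      calc q ^ a * N ≤ q ^ a * (a.factorial * ((de : ℝ) + 2) ^ (de + 1) * (a : ℝ) ^ (de + 1)) :=
            mul_le_mul_of_nonneg_left h1 (by positivity)
        _ = a.factorial * (((de : ℝ) + 2) ^ (de + 1) * ((a : ℝ) ^ (de + 1) * q ^ a)) := by ring
        _ ≤ a.factorial * ((1 - rho) * (de.factorial : ℝ)) :=
            mul_le_mul_of_nonneg_left (le_of_lt hsmall) (by positivity)
        _ = (1 - rho) * ((de.factorial : ℝ) * a.factorial) := by ring
    have h7 : y ^ (a + de + 1) * q ^ a ≤
        y ^ (a + de + 1) * ((1 - rho) * ((de.factorial : ℝ) * a.factorial / N)) :=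
      mul_le_mul_of_nonneg_left hkey (by positivity)
    nlinarith

end Pool.Agent.W2helper86.CW
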