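import Pool.Agent.W2helper59.CW.Stm

/-!
# Project CW: the probability of the chain of occurrences (piece CHN)
-/

set_option autoImplicit false

namespace Pool.Agent.W2helper86.CW

open MeasureTheory Set Pool.Agent.W2helper59.CW

instance prob_Icc : IsProbabilityMeasure ((volume : Measure ℝ).restrict (Icc (0 : ℝ) 1)) :=
  ⟨by simp⟩

theorem ae_mem (n : ℕ) (i : Fin n) : ∀ᵐ u ∂(mu n), u i ∈ Icc (0 : ℝ) 1 := by
  have h := measurePreserving_eval (fun _ : Fin n => (volume : Measure ℝ).restrict (Icc (0 : ℝ) 1)) i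
  exact h.quasiMeasurePreserving.ae (ae_restrict_mem measurableSet_Icc)

theorem kl_eq (hK : P_KAP) (hC : P_CONT) {l : ℕ} {p : Equiv.Perm (Fin (l + 2))}
    (hp : p 0 < p (Fin.last (l + 1))) {al de ga : ℕ} (hal : al = (p 0 : ℕ))
    (hde : de = (p (Fin.last (l + 1)) : ℕ) - (p 0 : ℕ) - 1)
    (hga : ga = l + 1 - (p (Fin.last (l + 1)) : ℕ)) (j : ℕ) {x : ℝ} (hx : x ∈ Icc (0 : ℝ) 1) :
    Kl p (fun y => ENNReal.ofReal
      (G al de ga j y / ((al.factorial : ℝ) * de.factorial * ga.factorial) ^ j)) x =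
    ENNReal.ofReal
      (G al de ga (j + 1) x / ((al.factorial : ℝ) * de.factorial * ga.factorial) ^ (j + 1)) := by
  set c : ℝ := (al.factorial : ℝ) * de.factorial * ga.factorial with hc
  have hc0 : 0 < c := by positivity
  obtain ⟨hcont, hnn⟩ := hC al de ga j
  unfold Kl
  have h1 : ∫⁻ y in Icc (0 : ℝ) 1, mu l {v : Fin l → ℝ | ∀ a b : Fin (l + 2),
        ((Fin.cons x (Fin.snoc v y : Fin (l + 1) → ℝ) : Fin (l + 2) → ℝ) a <
          (Fin.cons x (Fin.snoc v y : Fin (l + 1) → ℝ) : Fin (l + 2) → ℝ) b ↔ p a < p b)} *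
          ENNReal.ofReal (G al de ga j y / c ^ j) =
      ∫⁻ y in Icc (0 : ℝ) 1, ENNReal.ofReal ((Ioc x 1).indicator
        (fun y => x ^ al * (y - x) ^ de * (1 - y) ^ ga * G al de ga j y / c ^ (j + 1)) y) := by
    refine setLIntegral_congr_fun measurableSet_Icc fun y hy => ?_
    rw [hK l p hp x hx y hy, ← hde, ← hga, ← hal]
    by_cases hxy : x < y
    · rw [if_pos hxy, indicator_of_mem (show y ∈ Ioc x 1 from ⟨hxy, hy.2⟩), ← ENNReal.ofReal_mul]
      · congr 1
        rw [← hc]
        field_simp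
        ring
      · have h2 : 0 ≤ y - x := by linarith
        have h3 : 0 ≤ 1 - y := by linarith [hy.2]
        have h4 := hx.1
        positivity
    · rw [if_neg hxy, indicator_of_notMem (fun h => hxy h.1)]
      simp
  rw [h1, ← ofReal_integral_eq_lintegral_ofReal]
  · congr 1
    rw [integral_indicator measurableSet_Ioc, Measure.restrict_restrict measurableSet_Ioc]
    have h2 : Ioc x 1 ∩ Icc (0 : ℝ) 1 = Ioc x 1 := by
      apply inter_eq_left.mpr
      intro y hy
      exact ⟨hx.1.trans hy.1.le, hy.2⟩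
    rw [h2, ← intervalIntegral.integral_of_le hx.2, intervalIntegral.integral_div]
    congr 1
    unfold G Kr
    rw [Function.iterate_succ_apply']
  · have hcon : Continuous fun y => x ^ al * (y - x) ^ de * (1 - y) ^ ga * G al de ga j y /
        c ^ (j + 1) := by fun_prop
    exact (hcon.integrableOn_Icc.indicator measurableSet_Ioc)
  · refine (ae_restrict_iff' measurableSet_Icc).mpr (Filter.Eventually.of_forall fun y hy => ?_)
    simp only [Pi.zero_apply]
    apply indicator_nonneg
    intro z hz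
    have h2 : 0 ≤ z - x := by linarith [hz.1]
    have h3 : 0 ≤ 1 - z := by linarith [hz.2]
    have h4 := hx.1
    have h5 := hnn z ⟨by linarith [hz.1], hz.2⟩
    positivity

theorem chain (hK : P_KAP) (hS : P_STEP) (hC : P_CONT) {l : ℕ} {p : Equiv.Perm (Fin (l + 2))}
    (hp : p 0 < p (Fin.last (l + 1))) {al de ga : ℕ} (hal : al = (p 0 : ℕ))
    (hde : de = (p (Fin.last (l + 1)) : ℕ) - (p 0 : ℕ) - 1)
    (hga : ga = l + 1 - (p (Fin.last (l + 1)) : ℕ)) (k : ℕ) : ∀ j : ℕ,
    ∫⁻ u in {u : Fin ((l + 1) * k + 1) → ℝ | ∀ i ∈ Sk (l + 1) k, Occ p u i},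
      ENNReal.ofReal (G al de ga j (u (Fin.last _)) /
        ((al.factorial : ℝ) * de.factorial * ga.factorial) ^ j) ∂(mu ((l + 1) * k + 1)) =
    ∫⁻ x in Icc (0 : ℝ) 1, ENNReal.ofReal (G al de ga (j + k) x /
        ((al.factorial : ℝ) * de.factorial * ga.factorial) ^ (j + k)) := by
  induction k with
  | zero =>
    intro j
    have h0 : {u : Fin ((l + 1) * 0 + 1) → ℝ | ∀ i ∈ Sk (l + 1) 0, Occ p u i} = univ := by
      ext u
      simp [Sk]
    rw [h0, Measure.restrict_univ]
    have hm := measurePreserving_eval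
      (fun _ : Fin ((l + 1) * 0 + 1) => (volume : Measure ℝ).restrict (Icc (0 : ℝ) 1)) (Fin.last _)
    have hmeas : Measurable fun x : ℝ => ENNReal.ofReal (G al de ga j x /
        ((al.factorial : ℝ) * de.factorial * ga.factorial) ^ j) :=
      ((hC al de ga j).1.div_const _).measurable.ennreal_ofReal
    have := hm.lintegral_comp hmeas
    simpa [mu] using this
  | succ k ih =>
    intro j
    rw [hS l p k (fun y => ENNReal.ofReal (G al de ga j y /
        ((al.factorial : ℝ) * de.factorial * ga.factorial) ^ j))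
      ((hC al de ga j).1.div_const _).measurable.ennreal_ofReal]
    have h1 : ∫⁻ u in {u : Fin ((l + 1) * k + 1) → ℝ | ∀ i ∈ Sk (l + 1) k, Occ p u i},
        Kl p (fun y => ENNReal.ofReal (G al de ga j y /
          ((al.factorial : ℝ) * de.factorial * ga.factorial) ^ j)) (u (Fin.last _))
          ∂(mu ((l + 1) * k + 1)) =
        ∫⁻ u in {u : Fin ((l + 1) * k + 1) → ℝ | ∀ i ∈ Sk (l + 1) k, Occ p u i},
        ENNReal.ofReal (G al de ga (j + 1) (u (Fin.last _)) /
          ((al.factorial : ℝ) * de.factorial * ga.factorial) ^ (j + 1))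
          ∂(mu ((l + 1) * k + 1)) := by
      refine lintegral_congr_ae (ae_restrict_of_ae ?_)
      filter_upwards [ae_mem ((l + 1) * k + 1) (Fin.last _)] with u hu
      exact kl_eq hK hC hp hal hde hga j hu
    rw [h1, ih (j + 1)]
    have h2 : j + 1 + k = j + (k + 1) := by ring
    rw [h2]

theorem p_chn : P_CHN := by
  intro hK hS hC l p hp al de ga hal hde hga k
  have h := chain hK hS hC hp hal hde hga k 0
  set c : ℝ := (al.factorial : ℝ) * de.factorial * ga.factorial with hc
  have hc0 : 0 < c := by positivity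
  have hG0 : ∀ x, G al de ga 0 x = 1 := fun x => rfl
  simp only [hG0, pow_zero, div_one, ENNReal.ofReal_one, zero_add] at h
  rw [lintegral_one, Measure.restrict_apply_univ, ← ofReal_integral_eq_lintegral_ofReal] at h
  · unfold V Measure.real
    rw [h, ENNReal.toReal_ofReal]
    · rw [integral_Icc_eq_integral_Ioc, ← intervalIntegral.integral_of_le zero_le_one,
        intervalIntegral.integral_div]
      rfl
    · refine setIntegral_nonneg measurableSet_Icc fun x hx => ?_
      exact div_nonneg ((hC al de ga k).2 x hx) (by positivity)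
  · exact (((hC al de ga k).1.div_const _).integrableOn_Icc)
  · refine (ae_restrict_iff' measurableSet_Icc).mpr (Filter.Eventually.of_forall fun x hx => ?_)
    exact div_nonneg ((hC al de ga k).2 x hx) (by positivity)

end Pool.Agent.W2helper86.CW
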